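import Pool.Agent.J4H85.KR.Stm

set_option autoImplicit false

/-! Piece ENU of project KR (statement of helper85): the list of the neighbours. -/

namespace Pool.Agent.J4H52.KR

open Finset Pool.Agent.J4H85.KR

theorem t_ENU : S_ENU := by
  classical
  intro n T E
  set s : Fin n → Finset (Fin n) := fun a => univ.filter fun x => E a x with hs
  refine ⟨fun z => if h : (z.2 : ℕ) < (s z.1).card then
    (((s z.1).equivFin.symm ⟨z.2, h⟩ : s z.1) : Fin n) else n, ?_, ?_, ?_⟩
  · intro z
    dsimp only
    split_ifs with h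
    · exact (Fin.is_lt _).le
    · exact le_rfl
  · intro a i x hx
    dsimp only at hx
    split_ifs at hx with h
    · have h1 := Fin.ext hx
      have h2 := ((s a).equivFin.symm ⟨i, h⟩).2
      rw [h1] at h2
      exact (mem_filter.1 h2).2
    · exact absurd hx.symm (Fin.is_lt x).ne
  · intro a t ht ho x hx
    have hxs : x ∈ s a := mem_filter.2 ⟨mem_univ _, hx⟩
    have hc : (s a).card ≤ t := by
      refine le_trans (le_of_eq ?_) ho
      unfold outd
      congr
    have hi := ((s a).equivFin ⟨x, hxs⟩).2
    refine ⟨⟨(s a).equivFin ⟨x, hxs⟩, by omega⟩, by show ((s a).equivFin ⟨x, hxs⟩ : ℕ) < t; omega, ?_⟩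
    dsimp only
    rw [dif_pos hi]
    simp

end Pool.Agent.J4H52.KR
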